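import Pool.Agent.Q55.KY.Stm

/-! # Project KY, job LE2 -/

set_option autoImplicit false

namespace Pool.Agent.Q128.KY

open Pool.Agent.Q55.KY

variable {R I X : Type} [AddCommGroup X]

theorem s_add (D : Dat R I X) (β : R) (x y : X) : D.s β (x + y) = D.s β x + D.s β y := by
  simp only [Dat.s, map_add, add_smul]
  abel

theorem s_zero (D : Dat R I X) (β : R) : D.s β 0 = 0 := by
  simp [Dat.s]

theorem s_sum (D : Dat R I X) (β : R) {ι : Type} (S : Finset ι) (f : ι → X) :
    D.s β (∑ k ∈ S, f k) = ∑ k ∈ S, D.s β (f k) := by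
  classical
  induction S using Finset.induction_on with
  | empty => simp [s_zero]
  | insert a S ha ih => rw [Finset.sum_insert ha, Finset.sum_insert ha, s_add, ih]

theorem s_fix (D : Dat R I X) (β : R) (x : X) (h : D.ct β x = 0) : D.s β x = x := by
  simp [Dat.s, h]

theorem s_inj {D : Dat R I X} (hO : D.OrdF) (β : R) : Function.Injective (D.s β) := by
  intro x y h
  rw [← hO.ss β x, h, hO.ss]

theorem ell_le {D : Dat R I X} (hO : D.OrdF) (i : I) (y : X) :
    D.ell (D.s (D.sm i) y) ≤ D.ell y + 1 := by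
  rcases lt_trichotomy (D.ct (D.sm i) y) 0 with h | h | h
  · have h1 := hO.up i (D.s (D.sm i) y) (by rw [hO.cts]; omega)
    rw [hO.ss] at h1
    omega
  · rw [s_fix D _ _ h]
    omega
  · exact (hO.up i y h).le

theorem lle {D : Dat R I X} (hO : D.OrdF) (lam : X) (hl : D.Dom lam) :
    ∀ l : List I, D.ell (D.act l lam) ≤ l.length := by
  intro l
  induction l with
  | nil => simp [Dat.act, (hO.dom lam hl).2]
  | cons i l ih =>
    have := ell_le hO i (D.act l lam)
    simp only [Dat.act, List.length_cons]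
    omega

theorem orb_s {D : Dat R I X} (lam : X) {x : X} (hx : x ∈ D.orb lam) (i : I) :
    D.s (D.sm i) x ∈ D.orb lam := by
  obtain ⟨l, rfl⟩ := hx
  exact ⟨i :: l, rfl⟩

theorem ct_nonneg_of_simple {D : Dat R I X} (hA : D.Ax) (x : X)
    (h : ∀ i, 0 ≤ D.ct (D.sm i) x) (β : R) : 0 ≤ D.ct β x := by
  have key : ∀ f ∈ AddSubmonoid.closure (Set.range fun i => D.ct (D.sm i)), 0 ≤ f x := by
    intro f hf
    induction hf using AddSubmonoid.closure_induction with
    | mem f hf => obtain ⟨i, rfl⟩ := hf; exact h i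
    | zero => simp
    | add f g _ _ h1 h2 => rw [LinearMap.add_apply]; omega
  exact key _ (hA.ctn β)

theorem ct_nonpos_of_simple {D : Dat R I X} (hA : D.Ax) (x : X)
    (h : ∀ i, D.ct (D.sm i) x ≤ 0) (β : R) : D.ct β x ≤ 0 := by
  have key : ∀ f ∈ AddSubmonoid.closure (Set.range fun i => D.ct (D.sm i)), f x ≤ 0 := by
    intro f hf
    induction hf using AddSubmonoid.closure_induction with
    | mem f hf => obtain ⟨i, rfl⟩ := hf; exact h i
    | zero => simp
    | add f g _ _ h1 h2 => rw [LinearMap.add_apply]; omega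
  exact key _ (hA.ctn β)

theorem ct_pos_of_simple {D : Dat R I X} (hA : D.Ax) (x : X)
    (h : ∀ i, 0 < D.ct (D.sm i) x) (β : R) : 0 < D.ct β x := by
  have key : ∀ f ∈ AddSubmonoid.closure (Set.range fun i => D.ct (D.sm i)), f = 0 ∨ 0 < f x := by
    intro f hf
    induction hf using AddSubmonoid.closure_induction with
    | mem f hf => obtain ⟨i, rfl⟩ := hf; exact Or.inr (h i)
    | zero => exact Or.inl rfl
    | add f g _ _ h1 h2 =>
      rcases h1 with rfl | h1
      · rcases h2 with rfl | h2
        · left; simp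
        · right; simpa using h2
      · rcases h2 with rfl | h2
        · right; simpa using h1
        · right; rw [LinearMap.add_apply]; omega
  rcases key _ (hA.ctn β) with h1 | h1
  · have := hA.two β
    rw [h1] at this
    simp at this
  · exact h1

theorem mins {D : Dat R I X} (hO : D.OrdF) (lam : X) (hl : D.Dom lam) :
    ∀ x ∈ D.orb lam, ∃ l, D.act l lam = x ∧ l.length = D.ell x := by
  have key : ∀ n : ℕ, ∀ x ∈ D.orb lam, D.ell x = n → ∃ l, D.act l lam = x ∧ l.length = D.ell x := by
    intro n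
    induction n with
    | zero =>
      intro x hx hn
      rcases hO.ant lam x (hO.low lam hl x hx) with h | h
      · exact ⟨[], by simpa [Dat.act] using h, by simp [hn]⟩
      · omega
    | succ n ih =>
      intro x hx hn
      by_cases h : ∀ i, 0 ≤ D.ct (D.sm i) x
      · have := (hO.dom x h).2
        omega
      · push Not at h
        obtain ⟨i, hi⟩ := h
        have h1 := hO.up i (D.s (D.sm i) x) (by rw [hO.cts]; omega)
        rw [hO.ss] at h1
        obtain ⟨l, h2, h3⟩ := ih (D.s (D.sm i) x) (orb_s lam hx i) (by omega)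
        refine ⟨i :: l, ?_, ?_⟩
        · simp only [Dat.act, h2, hO.ss]
        · simp only [List.length_cons]; omega
  intro x hx
  exact key _ x hx rfl

/-- the inversions of a word -/
def NI (D : Dat R I X) (m : List I) : Set R := {β | ∃ β', D.rt β' = - D.act m.reverse (D.rt β)}

theorem ni_card [Finite R] {D : Dat R I X} (hA : D.Ax) (hO : D.OrdF) (hL : D.LenF) :
    ∀ m : List I, (NI D m).ncard ≤ m.length := by
  intro m
  induction m with
  | nil =>
    have : NI D [] = ∅ := by
      ext β
      simp only [NI, List.reverse_nil, Dat.act, Set.mem_setOf_eq, Set.mem_empty_iff_false,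
        iff_false, not_exists]
      intro β'
      exact hA.pos β' β
    rw [this]
    simp
  | cons i m ih =>
    choose! f hf using hA.simple i
    have h1 : (NI D (i :: m) \ {D.sm i}).ncard ≤ (NI D m).ncard := by
      refine Set.ncard_le_ncard_of_injOn f ?_ ?_ (Set.toFinite _)
      · rintro β ⟨⟨β', hβ'⟩, hne⟩
        refine ⟨β', ?_⟩
        rw [(hf β hne).2.1, hβ', List.reverse_cons, hL.app]
        rfl
      · rintro β ⟨-, hne⟩ β' ⟨-, hne'⟩ h
        apply hA.inj
        apply s_inj hO (D.sm i)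
        rw [← (hf β hne).2.1, ← (hf β' hne').2.1, h]
    have h2 : (NI D (i :: m)).ncard ≤ (insert (D.sm i) (NI D (i :: m) \ {D.sm i})).ncard := by
      apply Set.ncard_le_ncard _ (Set.toFinite _)
      intro β hβ
      by_cases h : β = D.sm i
      · exact Or.inl h
      · exact Or.inr ⟨hβ, h⟩
    have h3 := Set.ncard_insert_le (D.sm i) (NI D (i :: m) \ {D.sm i})
    simp only [List.length_cons]
    omega

theorem ni_eq [Finite R] {D : Dat R I X} (hA : D.Ax) (hO : D.OrdF) (hL : D.LenF) (lam : X)
    (hl : D.Dom lam) (l : List I) (h : l.length = D.ell (D.act l lam)) :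
    {β | D.ct β (D.act l lam) < 0} = NI D l := by
  apply Set.eq_of_subset_of_ncard_le _ _ (Set.toFinite _)
  · intro β hβ
    obtain ⟨β', h1 | h1⟩ := hL.cmp l.reverse β
    · have h2 := h1.2 (D.act l lam)
      rw [hL.rev] at h2
      have h3 := (hO.dom lam hl).1 β'
      simp only [Set.mem_setOf_eq] at hβ
      omega
    · exact ⟨β', h1.1⟩
  · have h1 := ni_card hA hO hL l
    rw [h] at h1
    exact h1

theorem unq [Finite R] {D : Dat R I X} (hA : D.Ax) (hO : D.OrdF) (hL : D.LenF) (lam : X)
    (hl : D.Dom lam) (l l' : List I) (he : D.act l lam = D.act l' lam)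
    (h : l.length = D.ell (D.act l lam)) (h' : l'.length = D.ell (D.act l' lam)) (x : X) :
    D.act l x = D.act l' x := by
  have hN : NI D l = NI D l' := by
    rw [← ni_eq hA hO hL lam hl l h, ← ni_eq hA hO hL lam hl l' h', he]
  have key : ∀ j, ∃ β', D.rt β' = D.act (l.reverse ++ l') (D.rt (D.sm j)) := by
    intro j
    have hneg : ∀ (m : List I) (y : X), D.act m (-y) = - D.act m y := by
      intro m y
      have := hL.smul m (-1) y
      simpa using this
    obtain ⟨β, h1 | h1⟩ := hL.cmp l' (D.sm j)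
    · have h2 : D.act l'.reverse (D.rt β) = D.rt (D.sm j) := by rw [h1.1, hL.rev]
      have h3 : β ∉ NI D l := by
        rw [hN]
        rintro ⟨β', hβ'⟩
        rw [h2] at hβ'
        exact hA.pos _ _ hβ'
      obtain ⟨β', h4 | h4⟩ := hL.cmp l.reverse β
      · exact ⟨β', by rw [hL.app, ← h1.1, h4.1]⟩
      · exact absurd ⟨β', h4.1⟩ h3
    · have h2 : D.rt (D.sm j) = - D.act l'.reverse (D.rt β) := by
        rw [h1.1, hneg, hL.rev, neg_neg]
      have h3 : β ∈ NI D l := by
        rw [hN]
        exact ⟨_, h2⟩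
      obtain ⟨β', hβ'⟩ := h3
      refine ⟨β', ?_⟩
      have h4 : D.act l' (D.rt (D.sm j)) = - D.rt β := by rw [h1.1, neg_neg]
      rw [hL.app, h4, hneg, hβ']
  have h5 := hL.tri (l.reverse ++ l') key x
  rw [hL.app] at h5
  rw [← hL.rev' l (D.act l' x), h5]

theorem ct_delta [Finite R] [Fintype R] {D : Dat R I X} (hA : D.Ax) (hO : D.OrdF) (i : I) :
    D.ct (D.sm i) (∑ β, D.rt β) = 2 := by
  classical
  choose! f hf using hA.simple i
  have hinj : Set.InjOn f ((Finset.univ.erase (D.sm i) : Finset R) : Set R) := by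
    intro β hβ β' hβ' h
    have hne : β ≠ D.sm i := by simpa using hβ
    have hne' : β' ≠ D.sm i := by simpa using hβ'
    apply hA.inj
    apply s_inj hO (D.sm i)
    rw [← (hf β hne).2.1, ← (hf β' hne').2.1, h]
  have himg : (Finset.univ.erase (D.sm i)).image f = Finset.univ.erase (D.sm i) := by
    apply Finset.eq_of_subset_of_card_le
    · intro β hβ
      rw [Finset.mem_image] at hβ
      obtain ⟨β', h1, rfl⟩ := hβ
      have h2 : β' ≠ D.sm i := by simpa using h1
      simpa using (hf β' h2).1
    · rw [Finset.card_image_of_injOn hinj]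
  have hsum : D.s (D.sm i) (∑ β ∈ Finset.univ.erase (D.sm i), D.rt β) =
      ∑ β ∈ Finset.univ.erase (D.sm i), D.rt β := by
    rw [s_sum]
    conv_rhs => rw [← himg]
    rw [Finset.sum_image hinj]
    refine Finset.sum_congr rfl fun β hβ => ?_
    have h2 : β ≠ D.sm i := by simpa using hβ
    rw [(hf β h2).2.1]
  have h0 : D.ct (D.sm i) (∑ β ∈ Finset.univ.erase (D.sm i), D.rt β) = 0 := by
    have h1 := hO.cts (D.sm i) (∑ β ∈ Finset.univ.erase (D.sm i), D.rt β)
    rw [hsum] at h1
    omega
  rw [← Finset.sum_erase_add _ _ (Finset.mem_univ (D.sm i)), map_add, h0, hA.two]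
  norm_num

theorem lng [Finite R] {D : Dat R I X} (hA : D.Ax) (hO : D.OrdF) (hL : D.LenF) :
    ∃ l, D.Lng l := by
  classical
  have := Fintype.ofFinite R
  set δ : X := ∑ β, D.rt β with hδ
  have hpos : ∀ β, 0 < D.ct β δ :=
    ct_pos_of_simple hA δ fun i => by rw [hδ, ct_delta hA hO i]; norm_num
  have hbd : BddAbove (Set.range fun l : List I => D.ell (D.act l δ)) := by
    refine ⟨Nat.card R, ?_⟩
    rintro _ ⟨l, rfl⟩
    exact Set.ncard_le_card _
  obtain ⟨l, hl⟩ := Nat.sSup_mem (Set.range_nonempty fun l : List I => D.ell (D.act l δ)) hbd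
  have hmax : ∀ l' : List I, D.ell (D.act l' δ) ≤ D.ell (D.act l δ) := by
    intro l'
    have h1 := le_csSup hbd ⟨l', rfl⟩
    rw [← hl] at h1
    exact h1
  have h1 : ∀ i, D.ct (D.sm i) (D.act l δ) ≤ 0 := by
    intro i
    by_contra hi
    push Not at hi
    have h2 := hO.up i _ hi
    have h3 := hmax (i :: l)
    simp only [Dat.act] at h3
    omega
  have h2 := ct_nonpos_of_simple hA _ h1
  refine ⟨l.reverse, fun β => ?_⟩
  obtain ⟨β', h3 | h3⟩ := hL.cmp l.reverse β
  · have h4 := h3.2 (D.act l δ)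
    rw [hL.rev] at h4
    have h5 := hpos β'
    have h6 := h2 β
    omega
  · exact ⟨β', h3.1⟩

theorem adm [Finite R] {D : Dat R I X} (hL : D.LenF) (lam : X) : ∃ N, D.Adm lam N := by
  classical
  have := Fintype.ofFinite R
  refine ⟨∏ β, (if D.ct β lam = 0 then 1 else (D.ct β lam).natAbs), ?_, ?_⟩
  · apply Finset.prod_pos
    intro β _
    split_ifs with h
    · exact one_pos
    · exact Int.natAbs_pos.2 h
  · rintro x ⟨l, rfl⟩ β hβ
    have key : ∃ β', D.ct β' lam = D.ct β (D.act l lam) ∨ D.ct β' lam = - D.ct β (D.act l lam) := by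
      obtain ⟨β', h | h⟩ := hL.cmp l.reverse β
      · have h1 := h.2 (D.act l lam)
        rw [hL.rev] at h1
        exact ⟨β', Or.inl h1⟩
      · have h1 := h.2 (D.act l lam)
        rw [hL.rev] at h1
        exact ⟨β', Or.inr h1⟩
    obtain ⟨β', h⟩ := key
    have h0 : D.ct β' lam ≠ 0 := by
      rcases h with h | h <;> rw [h]
      · exact hβ
      · exact neg_ne_zero.2 hβ
    have h1 : (D.ct β (D.act l lam)).natAbs = (D.ct β' lam).natAbs := by
      rcases h with h | h <;> rw [h]
      rw [Int.natAbs_neg]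
    rw [← Int.natAbs_dvd, h1, Int.natCast_dvd_natCast]
    have h2 := Finset.dvd_prod_of_mem
      (fun β => if D.ct β lam = 0 then 1 else (D.ct β lam).natAbs) (Finset.mem_univ β')
    simp only [h0, if_false] at h2
    exact h2

/-- Job LE2 -/
theorem le2 : S_Le2 := by
  intro R I X _ _ D hA hO hL
  exact
    { lle := fun lam h => lle hO lam h
      mins := fun lam h => mins hO lam h
      unq := fun lam h l l' he h1 h2 => unq hA hO hL lam h l l' he h1 h2
      lng := lng hA hO hL
      adm := fun lam => adm hL lam }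

end Pool.Agent.Q128.KY
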