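import Pool.Agent.Q55.KY.Stm

/-! # Project KY, job ROO -/

set_option autoImplicit false

namespace Pool.Agent.Q128.KY

open Pool.Agent.Q55.KY

section
variable {ι X Y : Type} [AddCommGroup X] [AddCommGroup Y] (P : RootPairing ι ℤ X Y)

theorem crys : P.IsCrystallographic := ⟨fun i j => ⟨P.pairing i j, rfl⟩⟩

theorem root_self (k : ι) : P.root (P.reflectionPerm k k) = - P.root k := by
  rw [P.root_reflectionPerm, P.reflection_apply_self]

theorem coroot_self (k : ι) (x : X) :
    P.coroot' (P.reflectionPerm k k) x = - P.coroot' k x := by
  rw [← P.coroot'_reflection, P.reflection_apply, map_sub, map_smul, P.root_coroot'_eq_pairing,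
    P.pairing_same, smul_eq_mul]
  ring

variable {P} (b : P.Base)

theorem height_neg {i j : ι} (h : P.root i = - P.root j) : b.height i = - b.height j := by
  have h1 : P.root i = P.root j + (-2 : ℤ) • P.root j := by
    rw [h]
    module
  rw [b.height_add_zsmul h1, smul_eq_mul]
  ring

theorem pos_or (k : ι) : b.IsPos k ∨ b.IsPos (P.reflectionPerm k k) := by
  rw [b.isPos_iff, b.isPos_iff, height_neg b (root_self P k)]
  have := b.height_ne_zero k
  omega

theorem not_pos_self {k : ι} (h : b.IsPos k) : ¬ b.IsPos (P.reflectionPerm k k) := by
  rw [b.isPos_iff] at h ⊢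
  rw [height_neg b (root_self P k)]
  omega

theorem pos_refl [Finite ι] [P.IsReduced] [P.IsCrystallographic] {i j : ι} (hj : j ∈ b.support)
    (hij : i ≠ j) (hij' : i ≠ P.reflectionPerm j j) :
    b.IsPos (P.reflectionPerm j i) ↔ b.IsPos i := by
  constructor
  · intro h
    have hne : P.reflectionPerm j i ≠ j := by
      intro he
      have h1 := congrArg (P.reflectionPerm j) he
      rw [P.reflectionPerm_self] at h1
      exact hij' h1
    have h1 := h.reflectionPerm hj hne
    rwa [P.reflectionPerm_self] at h1
  · intro h
    exact h.reflectionPerm hj hij

theorem flip_pos [Finite ι] [P.IsReduced] [P.IsCrystallographic] {i : ι} (hi : b.IsPos i) :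
    b.flip.IsPos i := by
  have hX : Module.IsReflexive ℤ X := .of_isPerfPair P.toLinearMap
  have hY : Module.IsReflexive ℤ Y := .of_isPerfPair P.flip.toLinearMap
  have key : (b.IsPos i ↔ b.flip.IsPos i) := by
    refine hi.induction_on_reflect (p := fun i => (b.IsPos i ↔ b.flip.IsPos i)) ?_ ?_
    · intro i hi
      exact ⟨fun _ => RootPairing.Base.isPos_of_mem_support (b := b.flip) hi,
        fun _ => RootPairing.Base.isPos_of_mem_support hi⟩
    · intro i j hp hj
      by_cases h1 : i = j
      · subst h1
        have h2 := not_pos_self b (RootPairing.Base.isPos_of_mem_support hj)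
        have h3 := not_pos_self b.flip (RootPairing.Base.isPos_of_mem_support (b := b.flip) hj)
        exact ⟨fun h => absurd h h2, fun h => absurd h h3⟩
      · by_cases h2 : i = P.reflectionPerm j j
        · have h3 : P.reflectionPerm j i = j := by rw [h2, P.reflectionPerm_self]
          rw [h3]
          exact ⟨fun _ => RootPairing.Base.isPos_of_mem_support (b := b.flip) hj,
            fun _ => RootPairing.Base.isPos_of_mem_support hj⟩
        · have h3 := pos_refl b hj h1 h2
          have h4 := pos_refl b.flip (i := i) (j := j) hj h1 h2
          exact h3.trans (hp.trans h4.symm)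
  exact key.1 hi

end

/-- Job ROO -/
theorem roo : S_Roo := by
  intro ι X Y _ _ _ P _ b
  have hcr : P.IsCrystallographic := crys P
  have hpos : ∀ i j : ι, b.IsPos i → b.IsPos j → P.root i ≠ - P.root j := by
    intro i j hi hj h
    have := height_neg b h
    rw [b.isPos_iff] at hi hj
    omega
  exact
    { two := fun β => by
        change P.coroot' β (P.root β) = 2
        rw [P.root_coroot'_eq_pairing, P.pairing_same]
      inj := fun β β' h => Subtype.ext (P.root.injective h)
      refl := fun γ β => by
        rcases pos_or b (P.reflectionPerm γ β) with h | h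
        · refine ⟨⟨_, h⟩, Or.inl ⟨?_, fun x => ?_⟩⟩
          · exact P.root_reflectionPerm γ β
          · exact (P.coroot'_reflection x).symm
        · refine ⟨⟨_, h⟩, Or.inr ⟨?_, fun x => ?_⟩⟩
          · change P.root _ = - P.reflection γ (P.root β)
            rw [root_self, P.root_reflectionPerm]
          · change P.coroot' _ x = - P.coroot' β (P.reflection γ x)
            rw [coroot_self, P.coroot'_reflection]
      simple := fun i β hβ => by
        have hne : (β : ι) ≠ i := fun h => hβ (Subtype.ext h)
        have h := β.2.reflectionPerm i.2 hne
        refine ⟨⟨_, h⟩, ?_, ?_, fun x => ?_⟩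
        · intro he
          have he' : P.reflectionPerm i β = i := congrArg Subtype.val he
          have h1 : P.reflection i (P.root β) = P.root i := by
            rw [← P.root_reflectionPerm, he']
          have h2 : P.root β = - P.root i := by
            rw [← P.reflection_apply_self, ← h1, P.reflection_same]
          exact hpos β i β.2 (RootPairing.Base.isPos_of_mem_support i.2) h2
        · exact P.root_reflectionPerm i β
        · exact (P.coroot'_reflection x).symm
      sign := fun β γ h => by
        change 0 < P.coroot' β (P.root γ)
        change 0 < P.coroot' γ (P.root β) at h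
        rw [P.root_coroot'_eq_pairing] at h ⊢
        have h1 : ∀ i j, P.pairingIn ℤ i j = P.pairing i j := fun i j => by
          have := P.algebraMap_pairingIn ℤ i j
          simpa using this
        rw [← h1] at h ⊢
        exact (P.zero_lt_pairingIn_iff' (S := ℤ)).1 h
      negr := fun γ β β' h => by
        change P.root β' = - P.reflection γ (P.root β) at h
        change 0 < P.coroot' γ (P.root β)
        rw [P.reflection_apply] at h
        have h1 : P.root β' = P.root (P.reflectionPerm β β) +
            (P.coroot' γ (P.root β)) • P.root γ := by
          rw [h, root_self]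
          abel
        have h2 := b.height_add_zsmul h1
        rw [height_neg b (root_self P β), smul_eq_mul] at h2
        have h3 := (b.isPos_iff).1 β.2
        have h4 := (b.isPos_iff).1 β'.2
        have h5 := (b.isPos_iff).1 γ.2
        by_contra h6
        push Not at h6
        have h7 := mul_nonpos_of_nonpos_of_nonneg h6 h5.le
        omega
      pos := fun β β' => hpos β β' β.2 β'.2
      rtn := fun β => by
        refine β.2.induction_on_add (p := fun k => P.root k ∈ AddSubmonoid.closure
          (Set.range fun i : b.support => P.root i)) ?_ ?_
        · intro i hi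
          exact AddSubmonoid.subset_closure ⟨⟨i, hi⟩, rfl⟩
        · intro i j k hk hi hj
          rw [hk]
          exact add_mem hi (AddSubmonoid.subset_closure ⟨⟨j, hj⟩, rfl⟩)
      ctn := fun β => by
        have hX : Module.IsReflexive ℤ X := .of_isPerfPair P.toLinearMap
        have hY : Module.IsReflexive ℤ Y := .of_isPerfPair P.flip.toLinearMap
        have h0 := flip_pos b β.2
        have h1 : P.coroot β ∈ AddSubmonoid.closure
            (Set.range fun i : b.support => P.coroot i) := by
          refine h0.induction_on_add (p := fun k => P.coroot k ∈ AddSubmonoid.closure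
            (Set.range fun i : b.support => P.coroot i)) ?_ ?_
          · intro i hi
            exact AddSubmonoid.subset_closure ⟨⟨i, hi⟩, rfl⟩
          · intro i j k hk hi hj
            have hk' : P.coroot k = P.coroot i + P.coroot j := hk
            rw [hk']
            exact add_mem hi (AddSubmonoid.subset_closure ⟨⟨j, hj⟩, rfl⟩)
        have h2 := AddSubmonoid.mem_map_of_mem
          (P.toLinearMap.flip.toAddMonoidHom : Y →+ (X →ₗ[ℤ] ℤ)) h1
        rw [AddMonoidHom.map_mclosure, ← Set.range_comp] at h2
        exact h2
      ind := b.linearIndepOn_root }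

end Pool.Agent.Q128.KY
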